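import Pool.Agent.W761.CP.Defs

/-!
# Project CP: energy identities
-/

set_option autoImplicit false

open MeasureTheory Filter
open scoped ENNReal FourierTransform SchwartzMap InnerProductSpace

namespace Pool.Agent.W597.CP

open Pool.Agent.W761.CP
open Pool.Agent.Helper209.CX (Ed L2d InH1 dirichlet IsHu)

/-- uniqueness of weak gradients -/
theorem grad_unique {d : ℕ} {u : L2d d} {g g' : Fin d → L2d d} (h : IsGrad u g)
    (h' : IsGrad u g') (k : Fin d) : g k = g' k := by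
  apply Lp.ext
  have h1 : LocallyIntegrable (fun x => (g k) x) volume :=
    (Lp.memLp (g k)).locallyIntegrable (by norm_num)
  have h2 : LocallyIntegrable (fun x => (g' k) x) volume :=
    (Lp.memLp (g' k)).locallyIntegrable (by norm_num)
  refine ae_eq_of_integral_contDiff_smul_eq h1 h2 ?_
  intro ψ hψ hψc
  obtain ⟨φ, hφ⟩ : ∃ φ : 𝓢(Ed d, ℂ), ∀ x, φ x = (ψ x : ℂ) := by
    have hc : HasCompactSupport (fun x => ((ψ x : ℝ) : ℂ)) :=
      hψc.comp_left (g := fun r : ℝ => (r : ℂ)) Complex.ofReal_zero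
    exact ⟨hc.toSchwartzMap (Complex.ofRealCLM.contDiff.comp hψ), fun x => rfl⟩
  have e1 := h φ k
  have e2 := h' φ k
  rw [e1] at e2
  have e3 := neg_injective e2
  simp only [hφ] at e3
  have e5 : ∀ (G : L2d d), ∫ x, ψ x • G x = ∫ x, G x * (ψ x : ℂ) := by
    intro G
    apply integral_congr_ae
    refine Eventually.of_forall fun x => ?_
    show ψ x • G x = G x * (ψ x : ℂ)
    rw [Complex.real_smul, mul_comm]
  exact ((e5 (g k)).trans e3).trans (e5 (g' k)).symm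

theorem grad_unique' {d : ℕ} {u : L2d d} {g g' : Fin d → L2d d} (h : IsGrad u g)
    (h' : IsGrad u g') : g = g' := funext fun k => grad_unique h h' k

/-- bounded continuous multipliers -/
theorem mulR_coe {d : ℕ} {χ : Ed d → ℝ} (hc : Continuous χ) {B : ℝ} (hB : ∀ x, |χ x| ≤ B)
    (u : L2d d) : (mulR χ u : Ed d → ℂ) =ᵐ[volume] fun x => (χ x : ℂ) * u x := by
  have hm : MemLp (fun x => (χ x : ℂ) * u x) 2 volume := by
    refine MemLp.of_le_mul (g := u) (c := B) (Lp.memLp u) ?_ ?_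
    · exact (Complex.continuous_ofReal.comp hc).aestronglyMeasurable.mul
        (Lp.aestronglyMeasurable u)
    · refine Eventually.of_forall fun x => ?_
      rw [norm_mul, Complex.norm_real]
      exact mul_le_mul_of_nonneg_right (hB x) (norm_nonneg _)
  unfold mulR
  rw [dif_pos hm]
  exact hm.coeFn_toLp

theorem mul_bdd {d : ℕ} {χ : Ed d → ℝ} (h : Mul χ) : Continuous χ ∧ ∃ B, ∀ x, |χ x| ≤ B := by
  refine ⟨h.smooth.continuous, ?_⟩
  obtain ⟨c, hc⟩ := h.supp
  obtain ⟨C, hC⟩ := hc.exists_bound_of_continuous (h.smooth.continuous.sub continuous_const)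
  refine ⟨C + |c|, fun x => ?_⟩
  have h1 := hC x
  rw [Real.norm_eq_abs] at h1
  calc |χ x| = |(χ x - c) + c| := by ring_nf
    _ ≤ |χ x - c| + |c| := abs_add_le _ _
    _ ≤ C + |c| := by linarith

theorem pd_bdd {d : ℕ} {χ : Ed d → ℝ} (h : Mul χ) (k : Fin d) :
    Continuous (pd k χ) ∧ ∃ B, ∀ x, |pd k χ x| ≤ B := by
  have h1 : Continuous (fderiv ℝ χ) := h.smooth.continuous_fderiv (by simp)
  have h2 : Continuous (pd k χ) := h1.clm_apply continuous_const
  refine ⟨h2, ?_⟩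
  obtain ⟨c, hc⟩ := h.supp
  have h3 : HasCompactSupport (fderiv ℝ (fun x => χ x - c)) := hc.fderiv (𝕜 := ℝ)
  have h4 : fderiv ℝ (fun x => χ x - c) = fderiv ℝ χ := by
    funext x
    exact fderiv_sub_const c
  rw [h4] at h3
  have h5 : HasCompactSupport (pd k χ) := h3.comp_left (g := fun L : Ed d →L[ℝ] ℝ => L (ev k)) rfl
  obtain ⟨C, hC⟩ := h5.exists_bound_of_continuous h2
  exact ⟨C, fun x => by rw [← Real.norm_eq_abs]; exact hC x⟩

theorem mul_sq {d : ℕ} {χ : Ed d → ℝ} (h : Mul χ) : Mul (fun x => χ x ^ 2) := by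
  refine ⟨h.smooth.pow 2, ?_⟩
  obtain ⟨c, hc⟩ := h.supp
  refine ⟨c ^ 2, ?_⟩
  have e : (fun x => χ x ^ 2 - c ^ 2) = (fun x => χ x - c) * (fun x => χ x + c) := by
    funext x
    simp only [Pi.mul_apply]
    ring
  rw [e]
  exact hc.mul_right

theorem pd_sq {d : ℕ} {χ : Ed d → ℝ} (h : Mul χ) (k : Fin d) :
    pd k (fun x => χ x ^ 2) = fun x => 2 * χ x * pd k χ x := by
  funext x
  have h1 : DifferentiableAt ℝ χ x := (h.smooth.differentiable (by simp)) x
  unfold pd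
  rw [show (fun x => χ x ^ 2) = fun x => χ x * χ x from funext fun x => sq (χ x)]
  rw [fderiv_fun_mul h1 h1]
  simp only [add_apply, smul_apply, smul_eq_mul]
  ring

theorem int_sq {d : ℕ} (u : L2d d) : Integrable (fun x => ‖u x‖ ^ 2) volume := by
  have h : MemLp (fun x => u x) ((2 : ℕ) : ℝ≥0∞) volume := by exact_mod_cast Lp.memLp u
  exact h.integrable_norm_pow (by norm_num)

/-- the algebraic identity -/
theorem alg (a b : ℝ) (u g : ℂ) :
    (⟪((a ^ 2 : ℝ) : ℂ) * g + ((2 * a * b : ℝ) : ℂ) * u, g⟫_ℂ).re + b ^ 2 * ‖u‖ ^ 2 =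
      (⟪(a : ℂ) * g + (b : ℂ) * u, (a : ℂ) * g + (b : ℂ) * u⟫_ℂ).re := by
  rw [← Complex.normSq_eq_norm_sq, Complex.normSq_apply]
  simp only [RCLike.inner_apply, Complex.add_re, Complex.add_im, Complex.mul_re, Complex.mul_im,
    Complex.ofReal_re, Complex.ofReal_im, Complex.conj_re, Complex.conj_im, map_add, map_mul]
  ring

theorem key {d : ℕ} {α β : Ed d → ℝ} (hα : Continuous α) (hβ : Continuous β) {A B : ℝ}
    (hA : ∀ x, |α x| ≤ A) (hB : ∀ x, |β x| ≤ B) (u g : L2d d) :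
    (⟪mulR (fun x => α x ^ 2) g + mulR (fun x => 2 * α x * β x) u, g⟫_ℂ).re =
      ‖mulR α g + mulR β u‖ ^ 2 - ∫ x, β x ^ 2 * ‖u x‖ ^ 2 := by
  have hA0 : 0 ≤ A := (abs_nonneg _).trans (hA 0)
  have hB0 : 0 ≤ B := (abs_nonneg _).trans (hB 0)
  have c1 := mulR_coe hα hA g
  have c2 := mulR_coe hβ hB u
  have c3 := mulR_coe (χ := fun x => α x ^ 2) (hα.pow 2) (B := A ^ 2) (fun x => by
    rw [abs_pow]; exact pow_le_pow_left₀ (abs_nonneg _) (hA x) 2) g
  have c4 := mulR_coe (χ := fun x => 2 * α x * β x) ((continuous_const.mul hα).mul hβ)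
    (B := 2 * A * B) (fun x => by
      rw [abs_mul, abs_mul, abs_two]
      exact mul_le_mul (mul_le_mul_of_nonneg_left (hA x) (by norm_num)) (hB x) (abs_nonneg _)
        (by positivity)) u
  have hbi : Integrable (fun x => β x ^ 2 * ‖u x‖ ^ 2) volume := by
    refine Integrable.mono' ((int_sq u).const_mul (B ^ 2)) ?_ ?_
    · exact (hβ.pow 2).aestronglyMeasurable.mul (int_sq u).aestronglyMeasurable
    · refine Eventually.of_forall fun x => ?_
      rw [Real.norm_eq_abs, abs_of_nonneg (by positivity)]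
      exact mul_le_mul_of_nonneg_right (by
        rw [← sq_abs]; exact pow_le_pow_left₀ (abs_nonneg _) (hB x) 2) (by positivity)
  obtain ⟨F, hF⟩ : ∃ F : L2d d, F = mulR (fun x => α x ^ 2) g + mulR (fun x => 2 * α x * β x) u :=
    ⟨_, rfl⟩
  obtain ⟨E, hE⟩ : ∃ E : L2d d, E = mulR α g + mulR β u := ⟨_, rfl⟩
  rw [← hF, ← hE]
  have i1 : Integrable (fun x => (⟪F x, g x⟫_ℂ).re) volume := (L2.integrable_inner (𝕜 := ℂ) F g).re
  have e1 : (⟪F, g⟫_ℂ).re = ∫ x, (⟪F x, g x⟫_ℂ).re := by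
    rw [L2.inner_def]
    exact (integral_re (L2.integrable_inner (𝕜 := ℂ) F g)).symm
  have e2 : ‖E‖ ^ 2 = ∫ x, (⟪E x, E x⟫_ℂ).re := by
    have h1 : ‖E‖ ^ 2 = (⟪E, E⟫_ℂ).re := (inner_self_eq_norm_sq (𝕜 := ℂ) E).symm
    rw [h1, L2.inner_def]
    exact (integral_re (L2.integrable_inner (𝕜 := ℂ) E E)).symm
  rw [e1, e2, eq_sub_iff_add_eq, ← integral_add i1 hbi]
  apply integral_congr_ae
  filter_upwards [c1, c2, c3, c4, Lp.coeFn_add (mulR α g) (mulR β u),
    Lp.coeFn_add (mulR (fun x => α x ^ 2) g) (mulR (fun x => 2 * α x * β x) u)]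
    with x x1 x2 x3 x4 x5 x6
  rw [hF, hE, x5, x6, Pi.add_apply, Pi.add_apply, x1, x2, x3, x4]
  exact alg (α x) (β x) (u x) (g x)

/-- the potential term -/
theorem pot {d : ℕ} {V : Ed d → ℂ} (hV : FB V) (u : L2d d) (g : Fin d → L2d d)
    (hg : IsGrad u g) {α : Ed d → ℝ} (hα : Continuous α) {A : ℝ} (hA : ∀ x, |α x| ≤ A) :
    (∫ x, V x * u x * (starRingEnd ℂ) (mulR α u x)).re = ∫ x, (V x).re * (α x * ‖u x‖ ^ 2) ∧
    (∫ x, V x * u x * (starRingEnd ℂ) (mulR α u x)).im = ∫ x, (V x).im * (α x * ‖u x‖ ^ 2) := by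
  obtain ⟨hm, C, -, hC⟩ := hV
  have hi := (hC u g hg).1
  have c := mulR_coe hα hA u
  have e : ∫ x, V x * u x * (starRingEnd ℂ) (mulR α u x) =
      ∫ x, V x * ((α x * ‖u x‖ ^ 2 : ℝ) : ℂ) := by
    apply integral_congr_ae
    filter_upwards [c] with x hx
    rw [hx, map_mul, Complex.conj_ofReal]
    have : u x * (starRingEnd ℂ) (u x) = ((‖u x‖ ^ 2 : ℝ) : ℂ) := by
      rw [Complex.mul_conj, Complex.normSq_eq_norm_sq]
    push_cast at this ⊢
    linear_combination V x * (α x : ℂ) * this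
  have hint : Integrable (fun x => V x * ((α x * ‖u x‖ ^ 2 : ℝ) : ℂ)) volume := by
    refine Integrable.mono' (hi.const_mul A) ?_ ?_
    · exact hm.aestronglyMeasurable.mul (Complex.continuous_ofReal.comp_aestronglyMeasurable
        (hα.aestronglyMeasurable.mul (int_sq u).aestronglyMeasurable))
    · refine Eventually.of_forall fun x => ?_
      rw [norm_mul, Complex.norm_real, norm_mul, Real.norm_eq_abs, Real.norm_eq_abs,
        abs_of_nonneg (by positivity : (0 : ℝ) ≤ ‖u x‖ ^ 2)]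
      have h1 : 0 ≤ ‖V x‖ * ‖u x‖ ^ 2 := by positivity
      calc ‖V x‖ * (|α x| * ‖u x‖ ^ 2) = |α x| * (‖V x‖ * ‖u x‖ ^ 2) := by ring
        _ ≤ A * (‖V x‖ * ‖u x‖ ^ 2) := mul_le_mul_of_nonneg_right (hA x) h1
  rw [e]
  constructor
  · have h1 := (integral_re hint).symm
    refine h1.trans ?_
    apply integral_congr_ae
    refine Eventually.of_forall fun x => ?_
    show (V x * ((α x * ‖u x‖ ^ 2 : ℝ) : ℂ)).re = _
    rw [Complex.re_mul_ofReal]
  · have h1 := (integral_im hint).symm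
    refine h1.trans ?_
    apply integral_congr_ae
    refine Eventually.of_forall fun x => ?_
    show (V x * ((α x * ‖u x‖ ^ 2 : ℝ) : ℂ)).im = _
    rw [Complex.im_mul_ofReal]

theorem e1 (hL : S_LEI) : S_E1 := by
  intro d h V u f g χ hV hH hg hχ
  obtain ⟨g₀, hg₀, H⟩ := hH
  have hgg := grad_unique' hg₀ hg
  subst hgg
  obtain ⟨hχc, A, hA⟩ := mul_bdd hχ
  have hχ2 := mul_sq hχ
  obtain ⟨hχ2c, A2, hA2⟩ := mul_bdd hχ2
  have T := H _ _ (hL d _ u g₀ hχ2 hg₀)
  have Tre := congrArg Complex.re T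
  rw [Complex.add_re, Complex.re_ofReal_mul, Complex.re_sum, (pot hV u g₀ hg₀ hχ2c hA2).1] at Tre
  have hk : ∀ k, (⟪mulR (fun x => χ x ^ 2) (g₀ k) + mulR (pd k (fun x => χ x ^ 2)) u,
      g₀ k⟫_ℂ).re = ‖mulR χ (g₀ k) + mulR (pd k χ) u‖ ^ 2 - ∫ x, pd k χ x ^ 2 * ‖u x‖ ^ 2 := by
    intro k
    obtain ⟨hpc, B, hB⟩ := pd_bdd hχ k
    rw [pd_sq hχ k]
    exact key hχc hpc hA hB u (g₀ k)
  have hsum : ∑ k, ∫ x, pd k χ x ^ 2 * ‖u x‖ ^ 2 = ∫ x, (∑ k, pd k χ x ^ 2) * ‖u x‖ ^ 2 := by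
    rw [← integral_finsetSum]
    · apply integral_congr_ae
      refine Eventually.of_forall fun x => ?_
      simp only [Finset.sum_mul]
    · intro k _
      obtain ⟨hpc, B, hB⟩ := pd_bdd hχ k
      refine Integrable.mono' ((int_sq u).const_mul (B ^ 2)) ?_ ?_
      · exact (hpc.pow 2).aestronglyMeasurable.mul (int_sq u).aestronglyMeasurable
      · refine Eventually.of_forall fun x => ?_
        rw [Real.norm_eq_abs, abs_of_nonneg (by positivity)]
        exact mul_le_mul_of_nonneg_right (by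
          rw [← sq_abs]; exact pow_le_pow_left₀ (abs_nonneg _) (hB x) 2) (by positivity)
  have hf : ⟪mulR (fun x => χ x ^ 2) u, f⟫_ℂ =
      ∫ x, (χ x ^ 2 : ℂ) * (f x * (starRingEnd ℂ) (u x)) := by
    rw [L2.inner_def]
    apply integral_congr_ae
    filter_upwards [mulR_coe hχ2c hA2 u] with x hx
    rw [hx, RCLike.inner_apply, map_mul, Complex.conj_ofReal]
    push_cast
    ring
  rw [Finset.sum_congr rfl fun k _ => hk k, Finset.sum_sub_distrib, hsum, hf] at Tre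
  linarith

theorem e0 : S_E0 := by
  intro d h V u f g hV hH hg
  obtain ⟨g₀, hg₀, H⟩ := hH
  have hgg := grad_unique' hg₀ hg
  subst hgg
  have T := H u g₀ hg₀
  have hone : mulR (fun _ : Ed d => (1 : ℝ)) u = u := by
    apply Lp.ext
    filter_upwards [mulR_coe (χ := fun _ : Ed d => (1 : ℝ)) continuous_const (B := 1)
      (fun x => by simp) u] with x hx
    rw [hx]
    simp
  have hp := pot hV u g₀ hg₀ (α := fun _ : Ed d => (1 : ℝ)) continuous_const (A := 1)
    (fun x => by simp)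
  rw [hone] at hp
  simp only [one_mul] at hp
  have hs : ∑ k, ⟪g₀ k, g₀ k⟫_ℂ = ((∑ k, ‖g₀ k‖ ^ 2 : ℝ) : ℂ) := by
    push_cast
    refine Finset.sum_congr rfl fun k _ => ?_
    rw [inner_self_eq_norm_sq_to_K]
    rfl
  rw [hs] at T
  constructor
  · have Tre := congrArg Complex.re T
    rw [Complex.add_re, ← Complex.ofReal_mul, Complex.ofReal_re, hp.1] at Tre
    exact Tre
  · have Tim := congrArg Complex.im T
    rw [Complex.add_im, ← Complex.ofReal_mul, Complex.ofReal_im, zero_add, hp.2] at Tim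
    exact Tim

end Pool.Agent.W597.CP
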